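import Mathlib.GroupTheory.Nilpotent
import Mathlib.GroupTheory.QuotientGroup.Basic

set_option autoImplicit false

/-!
# Polynilpotent series
-/

namespace Pool.Agent.N506.PN

universe u v

/-- The polynilpotent series of a subgroup `R`: `pn R [c₁, …, c_m]` is the term number `c₁ + 1`
(the first term is the subgroup itself) of the lower central series of `pn R [c₂, …, c_m]`, and
`pn R [] = R`. So for `m = 1`, `pn R [c] = γ_{c+1}(R)`, and `pn R [1, …, 1]` is a term of the
derived series of `R`. -/
def pn {G : Type u} [Group G] (R : Subgroup G) : List ℕ → Subgroup G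
  | [] => R
  | c :: cs => (pn R cs).lowerCentralSeries c

theorem lcs_normal {G : Type u} [Group G] (S : Subgroup G) (hS : S.Normal) (n : ℕ) :
    (S.lowerCentralSeries n).Normal := by
  induction n with
  | zero => exact hS
  | succ n ih =>
    rw [Subgroup.lowerCentralSeries_succ]
    exact Subgroup.commutator_normal _ _

instance pn_normal {G : Type u} [Group G] (R : Subgroup G) [R.Normal] (cs : List ℕ) :
    (pn R cs).Normal := by
  induction cs with
  | nil => exact inferInstanceAs R.Normal
  | cons c cs ih => exact lcs_normal _ ih c

theorem pn_le {G : Type u} [Group G] (R : Subgroup G) (cs : List ℕ) : pn R cs ≤ R := by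
  induction cs with
  | nil => exact le_rfl
  | cons c cs ih => exact ((pn R cs).lowerCentralSeries_antitone (Nat.zero_le c)).trans ih

theorem pn_map {G : Type u} {H : Type v} [Group G] [Group H] (f : G →* H) (R : Subgroup G)
    (cs : List ℕ) : (pn R cs).map f = pn (R.map f) cs := by
  induction cs with
  | nil => rfl
  | cons c cs ih =>
    rw [pn, pn, Subgroup.map_lowerCentralSeries, ih]

/-- The image of `R` in `G ⧸ pn R cs`. -/
def topP {G : Type u} [Group G] (R : Subgroup G) [R.Normal] (cs : List ℕ) :
    Subgroup (G ⧸ pn R cs) :=
  R.map (QuotientGroup.mk' (pn R cs))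

instance topP_normal {G : Type u} [Group G] (R : Subgroup G) [R.Normal] (cs : List ℕ) :
    (topP R cs).Normal :=
  Subgroup.Normal.map inferInstance _ (QuotientGroup.mk'_surjective _)

end Pool.Agent.N506.PN
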