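import Pool.Agent.H32CE.TMAG
import Pool.Agent.H32CE.TGRL
import Pool.Agent.H32CE.TINJ
import Pool.Agent.H32CE.TLYN
import Pool.Agent.H32CE.TBAS

set_option autoImplicit false

/-!
# The lower central factors of free groups are torsion-free

The theorem of Magnus for free groups of finite rank is in the starting library (`H32CE/TMAG`). The
deduction for finite rank follows `N399/PN/Res`.
-/

namespace Pool.Agent.N506.PN

open Pool.Agent.H32CE

theorem magnus (r c : ℕ) (x : FreeGroup (Fin r)) :
    D (c + 1) x ↔ x ∈ gam (FreeGroup (Fin r)) c :=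
  t_MAG t_GRL (t_INJ t_LYN) t_BAS r c x

/-- roots of elements of the terms of the lower central series of a free group of finite rank -/
theorem root_fin (r n : ℕ) (x : FreeGroup (Fin r)) (m : ℕ) (hm : 0 < m)
    (h : x ^ m ∈ (⊤ : Subgroup (FreeGroup (Fin r))).lowerCentralSeries n) :
    x ∈ (⊤ : Subgroup (FreeGroup (Fin r))).lowerCentralSeries n := by
  have h1 : D (n + 1) (x ^ m) := (magnus r n _).2 h
  refine (magnus r n x).1 ?_
  obtain ⟨-, hmul, hD, -, -, hadd, -⟩ := t_BAS (Fin r)
  -- by induction `D k x`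
  have key : ∀ k : ℕ, k ≤ n + 1 → D k x := by
    intro k
    induction k with
    | zero => intro _ i _ h2; omega
    | succ k ih =>
      intro hk
      have hDk : D k x := ih (by omega)
      rcases Nat.eq_zero_or_pos k with h0 | h0
      · subst h0
        intro i h1 h2
        omega
      have hpow : ∀ j : ℕ, D k (x ^ j) ∧ cf k (x ^ j) = (j : ℝ) • cf k x := by
        intro j
        induction j with
        | zero =>
          have h2 : D k (1 : FreeGroup (Fin r)) := TMAG.D_one t_BAS k
          refine ⟨by simpa using h2, ?_⟩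
          rw [pow_zero, Nat.cast_zero, zero_smul]
          exact TMAG.cf_one t_BAS k h0
        | succ j ihj =>
          rw [pow_succ]
          refine ⟨hD k _ _ ihj.1 hDk, ?_⟩
          rw [hadd k k _ _ ihj.1 hDk k h0 (by omega), ihj.2]
          push_cast
          rw [add_smul, one_smul]
      intro i h2 h3
      rcases Nat.lt_or_ge i k with h4 | h4
      · exact hDk i h2 h4
      · have h5 : i = k := by omega
        subst h5
        have h6 := h1 i h2 (by omega)
        rw [(hpow m).2] at h6
        have h7 : (m : ℝ) ≠ 0 := by exact_mod_cast hm.ne'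
        exact (smul_eq_zero.1 h6).resolve_left h7
  exact key (n + 1) le_rfl

/-- functoriality of the lower central series -/
theorem lcs_map {A B : Type} [Group A] [Group B] (f : A →* B) (n : ℕ) {x : A}
    (h : x ∈ (⊤ : Subgroup A).lowerCentralSeries n) :
    f x ∈ (⊤ : Subgroup B).lowerCentralSeries n := by
  have h1 := Subgroup.mem_map_of_mem f h
  rw [Subgroup.map_lowerCentralSeries] at h1
  exact Subgroup.lowerCentralSeries_mono n le_top h1

/-- the support of an element -/
theorem supp {X : Type} [DecidableEq X] (x : FreeGroup X) : ∃ Y : Finset X,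
    ∀ g : FreeGroup X →* FreeGroup X, (∀ y ∈ Y, g (FreeGroup.of y) = FreeGroup.of y) →
      g x = x := by
  induction x using FreeGroup.induction_on with
  | C1 => exact ⟨∅, fun g _ => map_one g⟩
  | of y => exact ⟨{y}, fun g hg => hg y (Finset.mem_singleton_self y)⟩
  | inv_of y h =>
    obtain ⟨Y, hY⟩ := h
    exact ⟨Y, fun g hg => by rw [map_inv, hY g hg]⟩
  | mul a b ha hb =>
    obtain ⟨Y, hY⟩ := ha
    obtain ⟨Z, hZ⟩ := hb
    refine ⟨Y ∪ Z, fun g hg => ?_⟩
    rw [map_mul, hY g fun y hy => hg y (Finset.mem_union_left _ hy),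
      hZ g fun y hy => hg y (Finset.mem_union_right _ hy)]

/-- roots of elements of the terms of the lower central series of a free group -/
theorem root_free {X : Type} (n : ℕ) (x : FreeGroup X) (m : ℕ) (hm : 0 < m)
    (h : x ^ m ∈ (⊤ : Subgroup (FreeGroup X)).lowerCentralSeries n) :
    x ∈ (⊤ : Subgroup (FreeGroup X)).lowerCentralSeries n := by
  classical
  obtain ⟨Y, hY⟩ := supp x
  let e : Fin Y.card ≃ Y := Y.equivFin.symm
  let g : FreeGroup X →* FreeGroup (Fin Y.card) := FreeGroup.lift fun y =>
    if hy : y ∈ Y then FreeGroup.of (e.symm ⟨y, hy⟩) else 1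
  let h' : FreeGroup (Fin Y.card) →* FreeGroup X := FreeGroup.lift fun i => FreeGroup.of (e i : X)
  have h1 : h' (g x) = x := by
    refine hY (h'.comp g) fun y hy => ?_
    rw [MonoidHom.comp_apply]
    simp only [g, h']
    rw [FreeGroup.lift_apply_of, dif_pos hy, FreeGroup.lift_apply_of, Equiv.apply_symm_apply]
  have h2 := lcs_map g n h
  rw [map_pow] at h2
  have h3 := lcs_map h' n (root_fin _ n (g x) m hm h2)
  rwa [h1] at h3

/-- roots of elements of the terms of the lower central series of a subgroup of a free group -/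
theorem root_sub {X : Type} (S : Subgroup (FreeGroup X)) (n : ℕ) (x : FreeGroup X) (hx : x ∈ S)
    (m : ℕ) (hm : 0 < m) (h : x ^ m ∈ S.lowerCentralSeries n) : x ∈ S.lowerCentralSeries n := by
  let e : S ≃* FreeGroup (IsFreeGroup.Generators S) := IsFreeGroup.toFreeGroup S
  rw [← Subgroup.top_subtype_lowerCentralSeries] at h ⊢
  obtain ⟨y, hy, hyx⟩ := h
  have h1 : y = (⟨x, hx⟩ : S) ^ m := Subtype.ext hyx
  rw [h1] at hy
  have h2 := lcs_map e.toMonoidHom n hy
  rw [map_pow] at h2
  have h3 := lcs_map e.symm.toMonoidHom n (root_free n _ m hm h2)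
  refine ⟨⟨x, hx⟩, ?_, rfl⟩
  have h4 : e.symm.toMonoidHom (e.toMonoidHom (⟨x, hx⟩ : S)) = ⟨x, hx⟩ := e.symm_apply_apply _
  rwa [h4] at h3

end Pool.Agent.N506.PN
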