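import Pool.Agent.N506.PN.P0
import Pool.Agent.N506.PN.TF
import Pool.Agent.N506.FZ

set_option autoImplicit false

/-!
# Automorphisms of polynilpotent extensions of free type: the induction
-/

namespace Pool.Agent.N506.PN

open Pool.Agent.N506.EX MonoidAlgebra

open scoped commutatorElement

/-- Classes of groups for which the induction works. -/
structure Cls (P : (G : Type) → [Group G] → Prop) : Prop where
  inj : ∀ {G H : Type} [Group G] [Group H], P H → ∀ q : G →* H, Function.Injective q → P G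
  ext : ∀ {G L : Type} [Group G] [Group L] (π : G →* L), P L → P π.ker → P G
  comm : ∀ (G : Type) [CommGroup G], P G
  mat : ∀ (G : Type) [Group G], VPolyTFA G → ∀ (X : Type) [Fintype X] [DecidableEq X],
    P (Matrix X X (MonoidAlgebra ℤ G))ˣ

/-- commutative groups, with a proof of commutativity -/
theorem Cls.comm' {P : (G : Type) → [Group G] → Prop} (hP : Cls P) (G : Type) [hG : Group G]
    (h : ∀ a b : G, a * b = b * a) : P G := by
  let inst : CommGroup G := { hG with mul_comm := h }
  exact hP.comm G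

section

variable {X Γ Q₀ : Type} [Group Γ] [Group Q₀]

/-- The automorphisms which are trivial modulo a subgroup which is generated by commutators with
a group which it centralises commute. -/
theorem autTriv_comm (S : Subgroup Γ) (c : ℕ) (hc : ⁅S.lowerCentralSeries (c + 1), S⁆ = ⊥)
    (φ ψ : autTriv (S.lowerCentralSeries (c + 1))) : φ * ψ = ψ * φ := by
  have hle : ∀ n, S.lowerCentralSeries n ≤ S := fun n =>
    S.lowerCentralSeries_antitone (Nat.zero_le n)
  have hcen : ∀ a ∈ S.lowerCentralSeries (c + 1), ∀ s ∈ S, a * s = s * a := by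
    intro a ha s hs
    have h1 : ⁅a, s⁆ ∈ (⊥ : Subgroup Γ) := hc ▸ Subgroup.commutator_mem_commutator ha hs
    rw [Subgroup.mem_bot, commutatorElement_eq_one_iff_mul_comm] at h1
    exact h1
  -- these automorphisms are trivial on the subgroup
  have htriv : ∀ χ : autTriv (S.lowerCentralSeries (c + 1)),
      ∀ a ∈ S.lowerCentralSeries (c + 1), (χ : MulAut Γ) a = a := by
    intro χ a ha
    have hsub : ⁅S.lowerCentralSeries c, S⁆ ≤
        MonoidHom.eqLocus ((χ : MulAut Γ) : Γ →* Γ) (MonoidHom.id Γ) := by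
      rw [Subgroup.commutator_le]
      intro u hu v hv
      change (χ : MulAut Γ) ⁅u, v⁆ = ⁅u, v⁆
      rw [map_commutatorElement]
      have hu' := χ.2 u
      have hv' := χ.2 v
      set a₁ := (χ : MulAut Γ) u * u⁻¹ with ha₁
      set a₂ := (χ : MulAut Γ) v * v⁻¹ with ha₂
      have e1 : (χ : MulAut Γ) u = a₁ * u := by rw [ha₁, inv_mul_cancel_right]
      have e2 : (χ : MulAut Γ) v = a₂ * v := by rw [ha₂, inv_mul_cancel_right]
      rw [e1, e2]
      have c1 : ∀ s ∈ S, a₁ * s = s * a₁ := fun s hs => hcen a₁ hu' s hs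
      have c2 : ∀ s ∈ S, a₂ * s = s * a₂ := fun s hs => hcen a₂ hv' s hs
      have hu1 : u ∈ S := hle c hu
      have k1 := c1 v hv
      have k2 := c1 a₂ (hle _ hv')
      have k3 := c2 u hu1
      have k4 := c1 u hu1
      have k5 := c2 v hv
      have k6 := c1 u⁻¹ (S.inv_mem hu1)
      have k7 := c1 v⁻¹ (S.inv_mem hv)
      have k8 := c2 u⁻¹ (S.inv_mem hu1)
      have k9 := c2 v⁻¹ (S.inv_mem hv)
      have e3 : (a₁ * u) * (a₂ * v) = (a₁ * a₂) * (u * v) := by
        rw [mul_assoc a₁ u, ← mul_assoc u a₂, ← k3]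
        group
      have e4 : (a₂ * v) * (a₁ * u) = (a₁ * a₂) * (v * u) := by
        rw [mul_assoc a₂ v, ← mul_assoc v a₁, ← k1, k2]
        group
      have e5 : ⁅a₁ * u, a₂ * v⁆ = ((a₁ * u) * (a₂ * v)) * ((a₂ * v) * (a₁ * u))⁻¹ := by
        rw [commutatorElement_def]
        group
      have e6 : ⁅u, v⁆ = (u * v) * (v * u)⁻¹ := by
        rw [commutatorElement_def]
        group
      have c3 : (a₁ * a₂) * ((u * v) * (v * u)⁻¹) = ((u * v) * (v * u)⁻¹) * (a₁ * a₂) := by
        have hm : (u * v) * (v * u)⁻¹ ∈ S :=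
          S.mul_mem (S.mul_mem hu1 hv) (S.inv_mem (S.mul_mem hv hu1))
        rw [mul_assoc, c2 _ hm, ← mul_assoc, c1 _ hm, mul_assoc]
      rw [e5, e3, e4, e6, mul_inv_rev, ← mul_assoc, mul_assoc (a₁ * a₂), c3,
        mul_inv_cancel_right]
    exact hsub ha
  apply Subtype.ext
  refine MulEquiv.ext fun g => ?_
  change (φ : MulAut Γ) ((ψ : MulAut Γ) g) = (ψ : MulAut Γ) ((φ : MulAut Γ) g)
  obtain ⟨a, h1, e1⟩ : ∃ a ∈ S.lowerCentralSeries (c + 1), (φ : MulAut Γ) g = a * g :=
    ⟨_, φ.2 g, (inv_mul_cancel_right _ _).symm⟩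
  obtain ⟨b, h2, e2⟩ : ∃ b ∈ S.lowerCentralSeries (c + 1), (ψ : MulAut Γ) g = b * g :=
    ⟨_, ψ.2 g, (inv_mul_cancel_right _ _).symm⟩
  rw [e1, e2, map_mul, map_mul, htriv φ b h2, htriv ψ a h1, e1, e2, ← mul_assoc, ← mul_assoc,
    hcen a h1 b (hle _ h2)]

/-- the data of a quotient of a free group by a polynilpotent subgroup -/
structure PF (cs : List ℕ) (q : FreeGroup X →* Γ) (p : Γ →* Q₀) : Prop where
  sq : Function.Surjective q
  sp : Function.Surjective p
  ker : q.ker = pn (p.comp q).ker cs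

variable {q : FreeGroup X →* Γ} {p : Γ →* Q₀}

theorem PF.map_ker {cs : List ℕ} (h : PF cs q p) : ((p.comp q).ker).map q = p.ker := by
  rw [← MonoidHom.comap_ker]
  exact Subgroup.map_comap_eq_self_of_surjective h.sq _

theorem PF.gen {cs : List ℕ} (h : PF cs q p) :
    Subgroup.closure (Set.range fun i : X => q (FreeGroup.of i)) = ⊤ := by
  have h1 : Set.range (fun i : X => q (FreeGroup.of i)) = q '' Set.range FreeGroup.of := by
    rw [← Set.range_comp]
    rfl
  rw [h1, ← MonoidHom.map_closure, FreeGroup.closure_range_of, Subgroup.map_top_of_surjective]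
  exact h.sq

variable (p) in
/-- The induced homomorphism. -/
def pA (cs : List ℕ) : Γ ⧸ pn p.ker cs →* Q₀ :=
  QuotientGroup.lift (pn p.ker cs) p (fun _ hg => pn_le _ cs hg)

theorem pA_ker (cs : List ℕ) : (pA p cs).ker = p.ker.map (QuotientGroup.mk' (pn p.ker cs)) := by
  ext z
  obtain ⟨g, rfl⟩ := QuotientGroup.mk_surjective z
  constructor
  · intro h
    exact ⟨g, h, rfl⟩
  · rintro ⟨g', h1, h2⟩
    rw [← h2]
    exact h1

theorem PF.quot {c : ℕ} {cs : List ℕ} (h : PF ((c + 1) :: cs) q p) :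
    PF (c :: cs) ((QuotientGroup.mk' (pn p.ker (c :: cs))).comp q) (pA p (c :: cs)) where
  sq := (QuotientGroup.mk'_surjective _).comp h.sq
  sp := by
    intro z
    obtain ⟨g, hg⟩ := h.sp z
    exact ⟨QuotientGroup.mk g, hg⟩
  ker := by
    have h1 : (pA p (c :: cs)).comp ((QuotientGroup.mk' (pn p.ker (c :: cs))).comp q) =
        p.comp q := rfl
    rw [h1]
    ext z
    rw [MonoidHom.mem_ker, MonoidHom.comp_apply]
    change ((q z : Γ) : Γ ⧸ pn p.ker (c :: cs)) = 1 ↔ _
    rw [QuotientGroup.eq_one_iff, ← h.map_ker, ← pn_map]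
    constructor
    · rintro ⟨y, hy, hyz⟩
      have h2 : z * y⁻¹ ∈ q.ker := by
        rw [MonoidHom.mem_ker, map_mul, map_inv, hyz, mul_inv_cancel]
      rw [h.ker] at h2
      have h3 : z * y⁻¹ ∈ pn (p.comp q).ker (c :: cs) :=
        (pn (p.comp q).ker cs).lowerCentralSeries_antitone (Nat.le_succ c) h2
      have h4 := (pn (p.comp q).ker (c :: cs)).mul_mem h3 hy
      rwa [inv_mul_cancel_right] at h4
    · intro hz
      exact ⟨z, hz, rfl⟩

theorem PF.bot {c : ℕ} {cs : List ℕ} (h : PF ((c + 1) :: cs) q p) :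
    ⁅pn p.ker (c :: cs), pn p.ker cs⁆ = ⊥ := by
  have h1 : ⁅pn p.ker (c :: cs), pn p.ker cs⁆ = pn p.ker ((c + 1) :: cs) := rfl
  rw [h1, ← h.map_ker, ← pn_map, ← h.ker, Subgroup.map_eq_bot_iff]

theorem PF.abel {c : ℕ} {cs : List ℕ} (h : PF ((c + 1) :: cs) q p) :
    ∀ a ∈ pn p.ker (c :: cs), ∀ b ∈ pn p.ker (c :: cs), a * b = b * a := by
  intro a ha b hb
  have hb' : b ∈ pn p.ker cs := (pn p.ker cs).lowerCentralSeries_antitone (Nat.zero_le c) hb
  have h1 : ⁅a, b⁆ ∈ (⊥ : Subgroup Γ) := h.bot ▸ Subgroup.commutator_mem_commutator ha hb'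
  rw [Subgroup.mem_bot, commutatorElement_eq_one_iff_mul_comm] at h1
  exact h1

theorem PF.tf {c : ℕ} {cs : List ℕ} (h : PF ((c + 1) :: cs) q p) :
    ∀ a ∈ pn p.ker (c :: cs), ∀ m : ℕ, 0 < m → a ^ m = 1 → a = 1 := by
  intro a ha m hm h1
  rw [← h.map_ker, ← pn_map] at ha
  obtain ⟨x, hx, rfl⟩ := ha
  rw [← map_pow, ← MonoidHom.mem_ker, h.ker] at h1
  rw [← MonoidHom.mem_ker, h.ker]
  exact root_sub (pn (p.comp q).ker cs) (c + 1) x
    ((pn (p.comp q).ker cs).lowerCentralSeries_antitone (Nat.zero_le c) hx) m hm h1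

theorem PF.der [Fintype X] [DecidableEq X] {cs : List ℕ} (h : PF (1 :: cs) q p) :
    ∃ D : Γ → ML X (Γ ⧸ pn p.ker (0 :: cs)), IsDer (pn p.ker (0 :: cs)) D ∧
      ∀ i, D (q (FreeGroup.of i)) = Pi.single i 1 := by
  let W := WM X (Γ ⧸ pn p.ker (0 :: cs))
  let r : W →* Γ ⧸ pn p.ker (0 :: cs) := SemidirectProduct.rightHom
  let t : FreeGroup X →* W := FreeGroup.lift fun i =>
    ⟨Multiplicative.ofAdd (Pi.single i 1), (QuotientGroup.mk (q (FreeGroup.of i)))⟩
  have ht : ∀ i, t (FreeGroup.of i) =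
    ⟨Multiplicative.ofAdd (Pi.single i 1), (QuotientGroup.mk (q (FreeGroup.of i)))⟩ := fun i =>
    FreeGroup.lift_apply_of
  have hrt : r.comp t = (QuotientGroup.mk' (pn p.ker (0 :: cs))).comp q := by
    apply FreeGroup.ext_hom
    intro i
    rw [MonoidHom.comp_apply, ht]
    rfl
  have hker : q.ker ≤ t.ker := by
    rw [h.ker]
    change ⁅pn (p.comp q).ker cs, pn (p.comp q).ker cs⁆ ≤ t.ker
    rw [Subgroup.commutator_le]
    have hS : ∀ a ∈ pn (p.comp q).ker cs, (t a).right = 1 := by
      intro a ha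
      have h1 : r (t a) = QuotientGroup.mk (q a) := congrArg (fun f : FreeGroup X →* _ => f a) hrt
      have h2 : q a ∈ pn p.ker (0 :: cs) := by
        have h3 : q a ∈ (pn (p.comp q).ker cs).map q := ⟨a, ha, rfl⟩
        rw [pn_map, h.map_ker] at h3
        exact h3
      have h3 : r (t a) = 1 := by rw [h1, QuotientGroup.eq_one_iff]; exact h2
      exact h3
    intro a ha b hb
    rw [MonoidHom.mem_ker, map_commutatorElement, commutatorElement_eq_one_iff_mul_comm]
    exact WM_ker_comm _ _ (hS a ha) (hS b hb)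
  -- the induced homomorphism of `Γ`
  let e : FreeGroup X ⧸ q.ker ≃* Γ := QuotientGroup.quotientKerEquivOfSurjective q h.sq
  let θ : Γ →* W := (QuotientGroup.lift q.ker t hker).comp e.symm.toMonoidHom
  have hθ : ∀ z, θ (q z) = t z := by
    intro z
    have h1 : e.symm (q z) = QuotientGroup.mk z := by
      rw [MulEquiv.symm_apply_eq]
      rfl
    change QuotientGroup.lift q.ker t hker (e.symm (q z)) = t z
    rw [h1]
    rfl
  have hθr : ∀ g, (θ g).right = (QuotientGroup.mk g : Γ ⧸ pn p.ker (0 :: cs)) := by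
    intro g
    obtain ⟨z, rfl⟩ := h.sq g
    rw [hθ]
    exact congrArg (fun f : FreeGroup X →* _ => f z) hrt
  refine ⟨fun g => Multiplicative.toAdd (θ g).left, ?_, ?_⟩
  · intro g g'
    simp only
    rw [map_mul, SemidirectProduct.mul_left, hθr]
    rfl
  · intro i
    simp only
    rw [hθ, ht]
    rfl

/-- the homomorphism to the automorphisms of the quotient -/
theorem autTriv_ext {P : (G : Type) → [Group G] → Prop} (hP : Cls P) (cs : List ℕ)
    (hQ : P (autTriv (pA p cs).ker)) (hA : P (autTriv (pn p.ker cs))) : P (autTriv p.ker) := by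
  have hmap : ∀ φ : autTriv p.ker, (pn p.ker cs).map ((φ : MulAut Γ) : Γ →* Γ) =
      pn p.ker cs := by
    intro φ
    rw [pn_map]
    congr 1
    apply le_antisymm
    · rintro _ ⟨g, hg, rfl⟩
      have h1 := p.ker.mul_mem (φ.2 g) hg
      rw [inv_mul_cancel_right] at h1
      exact h1
    · intro g hg
      refine ⟨((φ⁻¹ : autTriv p.ker) : MulAut Γ) g, ?_, ?_⟩
      · have h1 := p.ker.mul_mem ((φ⁻¹ : autTriv p.ker).2 g) hg
        rw [inv_mul_cancel_right] at h1
        exact h1
      · change ((φ : MulAut Γ) * ((φ⁻¹ : autTriv p.ker) : MulAut Γ)) g = g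
        rw [← Subgroup.coe_mul, mul_inv_cancel]
        rfl
  let ρ : autTriv p.ker →* autTriv (pA p cs).ker :=
    { toFun := fun φ => ⟨QuotientGroup.congr (pn p.ker cs) (pn p.ker cs) (φ : MulAut Γ)
        (hmap φ), by
        intro z
        obtain ⟨g, rfl⟩ := QuotientGroup.mk_surjective z
        exact φ.2 g⟩
      map_one' := by
        apply Subtype.ext
        refine MulEquiv.ext fun z => ?_
        obtain ⟨g, rfl⟩ := QuotientGroup.mk_surjective z
        rfl
      map_mul' := by
        intro φ ψ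
        apply Subtype.ext
        refine MulEquiv.ext fun z => ?_
        obtain ⟨g, rfl⟩ := QuotientGroup.mk_surjective z
        rfl }
  refine hP.ext ρ hQ ?_
  -- the kernel
  have hker : ∀ φ : ρ.ker, ((φ : autTriv p.ker) : MulAut Γ) ∈ autTriv (pn p.ker cs) := by
    intro φ g
    have h1 : ρ (φ : autTriv p.ker) = 1 := φ.2
    have h2 := congrArg (fun a : autTriv (pA p cs).ker => (a : MulAut _)
      (QuotientGroup.mk g : Γ ⧸ pn p.ker cs)) h1
    have h3 : (QuotientGroup.mk (((φ : autTriv p.ker) : MulAut Γ) g) : Γ ⧸ pn p.ker cs) =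
      QuotientGroup.mk g := h2
    rw [← QuotientGroup.eq_one_iff, QuotientGroup.mk_mul, QuotientGroup.mk_inv, h3,
      mul_inv_cancel]
  refine hP.inj hA ((((autTriv p.ker).subtype.comp ρ.ker.subtype)).codRestrict
    (autTriv (pn p.ker cs)) hker) ?_
  intro a b hab
  exact Subtype.ext (Subtype.ext (congrArg
    (fun g : autTriv (pn p.ker cs) => (g : MulAut Γ)) hab))

end

/-- The main induction. -/
theorem PF.main {P : (G : Type) → [Group G] → Prop} (hP : Cls P) {Q₀ : Type} [Group Q₀]
    (hQ₀ : VPolyTFA Q₀) {X : Type} [Fintype X] [DecidableEq X] (cs : List ℕ) :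
    ∀ {Γ : Type} [Group Γ] {q : FreeGroup X →* Γ} {p : Γ →* Q₀}, PF cs q p →
      P (autTriv p.ker) ∧ VPolyTFA Γ := by
  induction cs with
  | nil =>
    intro Γ _ q p h
    have hker : p.ker = ⊥ := by
      rw [← h.map_ker, Subgroup.map_eq_bot_iff, h.ker]
      exact le_rfl
    constructor
    · refine hP.comm' _ fun a b => ?_
      have hs : ∀ a : autTriv p.ker, a = 1 := by
        intro a
        apply Subtype.ext
        refine MulEquiv.ext fun g => ?_
        have ha' := hker.le (a.2 g)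
        rw [Subgroup.mem_bot, mul_inv_eq_one] at ha'
        exact ha'
      rw [hs a, hs b]
    · refine VPolyTFA.extension p hQ₀ ?_
      have : Subsingleton p.ker := by
        rw [hker]
        infer_instance
      exact PolyTFA.triv _
  | cons c cs ih =>
    induction c with
    | zero =>
      intro Γ _ q p h
      exact ih ⟨h.sq, h.sp, h.ker⟩
    | succ c ihc =>
      intro Γ _ q p h
      obtain ⟨hEx, hV⟩ := ihc h.quot
      constructor
      · refine autTriv_ext hP (c :: cs) hEx ?_
        cases c with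
        | zero =>
          obtain ⟨D, hD, hDx⟩ := h.der
          exact hP.inj (hP.mat _ hV X) (hD.rep _ h.gen hDx)
            (hD.rep_injective _ h.gen h.abel hDx)
        | succ c =>
          refine hP.comm' _ fun φ ψ => ?_
          exact autTriv_comm (pn p.ker cs) c h.bot φ ψ
      · refine VPolyTFA.extension (QuotientGroup.mk' (pn p.ker (c :: cs))) hV ?_
        have h1 : (QuotientGroup.mk' (pn p.ker (c :: cs))).ker = pn p.ker (c :: cs) :=
          QuotientGroup.ker_mk' _
        let inst : CommGroup (QuotientGroup.mk' (pn p.ker (c :: cs))).ker :=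
          { (inferInstance : Group (QuotientGroup.mk' (pn p.ker (c :: cs))).ker) with
            mul_comm := fun a b => Subtype.ext (h.abel a (h1.le a.2) b (h1.le b.2)) }
        have : IsMulTorsionFree (QuotientGroup.mk' (pn p.ker (c :: cs))).ker := by
          constructor
          intro n hn a b hab
          have hab' : a ^ n = b ^ n := hab
          have h2 : (a * b⁻¹) ^ n = 1 := by
            rw [mul_pow, inv_pow, hab', mul_inv_cancel]
          have h3 : ((a * b⁻¹ : (QuotientGroup.mk' (pn p.ker (c :: cs))).ker) : Γ) = 1 := by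
            refine h.tf _ (h1.le (a * b⁻¹).2) n (Nat.pos_of_ne_zero hn) ?_
            have h4 := congrArg Subtype.val h2
            exact h4
          have h5 : a * b⁻¹ = 1 := Subtype.ext h3
          exact mul_inv_eq_one.1 h5
        exact PolyTFA.comm _

end Pool.Agent.N506.PN
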