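import Pool.Agent.N506.PN.PF
import Pool.Agent.N506.EZH
import Pool.Agent.N506.EZF

set_option autoImplicit false

/-!
# Automorphisms of polynilpotent extensions: one nilpotent layer, and quotients of free groups
-/

namespace Pool.Agent.N506.PN

open Pool.Agent.N506.EX MonoidAlgebra

open scoped commutatorElement

/-- Group rings of isomorphic groups. -/
theorem Cls.mat_equiv {P : (G : Type) → [Group G] → Prop} (hP : Cls P) {X : Type} [Fintype X]
    [DecidableEq X] {G Q : Type} [Group G] [Group Q] (e : G ≃* Q)
    (h : P (Matrix X X (MonoidAlgebra ℤ Q))ˣ) : P (Matrix X X (MonoidAlgebra ℤ G))ˣ := by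
  refine hP.inj h (Units.map
    ((MonoidAlgebra.mapDomainRingHom ℤ e.toMonoidHom).mapMatrix :
      Matrix X X (MonoidAlgebra ℤ G) →+* Matrix X X (MonoidAlgebra ℤ Q)).toMonoidHom) ?_
  intro a b hab
  apply Units.ext
  refine Matrix.ext fun i j => ?_
  have h1 := congrArg (fun u : (Matrix X X (MonoidAlgebra ℤ Q))ˣ => (u : Matrix X X (MonoidAlgebra ℤ Q)) i j) hab
  exact MonoidAlgebra.mapDomain_injective e.injective h1

/-- One nilpotent layer. -/
theorem PF.main1 {P : (G : Type) → [Group G] → Prop} (hP : Cls P) {Q₀ : Type} [Group Q₀]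
    {X : Type} [Fintype X] [DecidableEq X] (hm : P (Matrix X X (MonoidAlgebra ℤ Q₀))ˣ) (c : ℕ) :
    ∀ {Γ : Type} [Group Γ] {q : FreeGroup X →* Γ} {p : Γ →* Q₀}, PF [c] q p →
      P (autTriv p.ker) := by
  induction c with
  | zero =>
    intro Γ _ q p h
    have hker : p.ker = ⊥ := by
      rw [← h.map_ker, Subgroup.map_eq_bot_iff, h.ker]
      exact le_rfl
    refine hP.comm' _ fun a b => ?_
    have hs : ∀ a : autTriv p.ker, a = 1 := by
      intro a
      apply Subtype.ext
      refine MulEquiv.ext fun g => ?_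
      have ha' := hker.le (a.2 g)
      rw [Subgroup.mem_bot, mul_inv_eq_one] at ha'
      exact ha'
    rw [hs a, hs b]
  | succ c ihc =>
    intro Γ _ q p h
    refine autTriv_ext hP [c] (ihc h.quot) ?_
    cases c with
    | zero =>
      obtain ⟨D, hD, hDx⟩ := h.der
      have e : Γ ⧸ pn p.ker [0] ≃* Q₀ := QuotientGroup.quotientKerEquivOfSurjective p h.sp
      exact hP.inj (hP.mat_equiv e hm) (hD.rep _ h.gen hDx)
        (hD.rep_injective _ h.gen h.abel hDx)
    | succ c =>
      refine hP.comm' _ fun φ ψ => ?_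
      exact autTriv_comm (pn p.ker []) c h.bot φ ψ

section Free

variable {X : Type} (R : Subgroup (FreeGroup X)) [R.Normal] (cs : List ℕ)

/-- The homomorphism to `F ⧸ R`. -/
def pR : FreeGroup X ⧸ pn R cs →* FreeGroup X ⧸ R :=
  QuotientGroup.lift (pn R cs) (QuotientGroup.mk' R)
    (fun g hg => (QuotientGroup.eq_one_iff g).mpr (pn_le R cs hg))

theorem pR_ker : (pR R cs).ker = topP R cs := by
  ext z
  obtain ⟨g, rfl⟩ := QuotientGroup.mk_surjective z
  constructor
  · intro h
    refine ⟨g, ?_, rfl⟩
    have h1 : (QuotientGroup.mk g : FreeGroup X ⧸ R) = 1 := h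
    exact (QuotientGroup.eq_one_iff g).mp h1
  · rintro ⟨g', h1, h2⟩
    rw [← h2]
    exact (QuotientGroup.eq_one_iff g').mpr h1

theorem PF.free : PF cs (QuotientGroup.mk' (pn R cs)) (pR R cs) where
  sq := QuotientGroup.mk'_surjective _
  sp := by
    intro z
    obtain ⟨g, rfl⟩ := QuotientGroup.mk_surjective z
    exact ⟨QuotientGroup.mk g, rfl⟩
  ker := by
    have h1 : (pR R cs).comp (QuotientGroup.mk' (pn R cs)) = QuotientGroup.mk' R := rfl
    rw [h1, QuotientGroup.ker_mk', QuotientGroup.ker_mk']

theorem countable_autP [Finite X] : Countable (MulAut (FreeGroup X ⧸ pn R cs)) := by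
  have h0 : Countable (FreeGroup X) := inferInstance
  have h1 : Countable (FreeGroup X ⧸ pn R cs) := (QuotientGroup.mk_surjective).countable
  have hgen := (PF.free R cs).gen
  refine Function.Injective.countable (f := fun (φ : MulAut (FreeGroup X ⧸ pn R cs)) (i : X) =>
    φ (QuotientGroup.mk (FreeGroup.of i))) ?_
  intro a b hab
  apply MulEquiv.toMonoidHom_injective
  exact hom_ext_gen hgen _ _ fun i => congrFun hab i

end Free

/-- nilpotent groups are amenable -/
theorem amen_lcs (c : ℕ) : ∀ (G : Type) [Group G],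
    (⊤ : Subgroup G).lowerCentralSeries c = ⊥ → Amen G := by
  induction c with
  | zero =>
    intro G _ h
    have h1 : Subsingleton G := by
      rw [← Subgroup.subsingleton_iff]
      exact subsingleton_of_bot_eq_top h.symm
    exact Amen.of_subsingleton
  | succ c ih =>
    intro G _ h
    have hn : ((⊤ : Subgroup G).lowerCentralSeries c).Normal := lcs_normal _ inferInstance c
    refine Amen.extension (QuotientGroup.mk' ((⊤ : Subgroup G).lowerCentralSeries c))
      (QuotientGroup.mk'_surjective _) ?_ (ih _ ?_)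
    · rw [QuotientGroup.ker_mk']
      let inst : CommGroup ((⊤ : Subgroup G).lowerCentralSeries c) :=
        { (inferInstance : Group ((⊤ : Subgroup G).lowerCentralSeries c)) with
          mul_comm := fun a b => by
            apply Subtype.ext
            have h2 : ⁅(a : G), (b : G)⁆ ∈ (⊥ : Subgroup G) :=
              h ▸ Subgroup.commutator_mem_commutator a.2 (Subgroup.mem_top _)
            rw [Subgroup.mem_bot, commutatorElement_eq_one_iff_mul_comm] at h2
            exact h2 }
      exact Amen.comm _
    · have h3 := Subgroup.map_lowerCentralSeries (⊤ : Subgroup G)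
        (QuotientGroup.mk' ((⊤ : Subgroup G).lowerCentralSeries c)) c
      rw [Subgroup.map_top_of_surjective _ (QuotientGroup.mk'_surjective _)] at h3
      rw [← h3, Subgroup.map_eq_bot_iff, QuotientGroup.ker_mk']

theorem amen_topP {X : Type} (R : Subgroup (FreeGroup X)) [R.Normal] (c : ℕ) :
    Amen (topP R [c]) := by
  refine amen_lcs c _ ?_
  apply Subgroup.map_injective (topP R [c]).subtype_injective
  rw [Subgroup.top_subtype_lowerCentralSeries, Subgroup.map_bot, topP,
    ← Subgroup.map_lowerCentralSeries, Subgroup.map_eq_bot_iff, QuotientGroup.ker_mk']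
  exact le_rfl

end Pool.Agent.N506.PN
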