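import Pool.Agent.N506.PN.PG
import Pool.Agent.N506.FY

set_option autoImplicit false

/-!
# Automorphisms of polynilpotent extensions: exactness and finite decomposition complexity
-/

namespace Pool.Agent.N506.PN

open Pool.Agent.N506.EX Pool.Agent.N506.FX MonoidAlgebra

theorem cls_ex : Cls (fun (G : Type) [Group G] => Ex G) where
  inj := fun h q hq => Ex.of_injective h q hq
  ext := fun π h1 h2 => Ex.ext π h1 h2
  comm := fun _ _ => Am.ex Am.of_comm
  mat := fun _ _ h X _ _ => (h.mex ℤ).index X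

theorem cls_fdc : Cls (fun (G : Type) [Group G] => FDC G) where
  inj := fun h q hq => FDC.of_injective h q hq
  ext := fun π h1 h2 => FDC.ext π h1 h2
  comm := fun G _ => FDC.comm G
  mat := fun _ _ h X _ _ => (h.mfd ℤ).index X

section

variable (n : ℕ) (R : Subgroup (FreeGroup (Fin n))) [R.Normal]

theorem ex_poly (hR : VPolyTFA (FreeGroup (Fin n) ⧸ R)) (cs : List ℕ) :
    Ex (autTriv (topP R cs)) ∧ VPolyTFA (FreeGroup (Fin n) ⧸ pn R cs) := by
  rw [← pR_ker]
  exact PF.main cls_ex hR cs (PF.free R cs)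

theorem fdc_poly (hR : VPolyTFA (FreeGroup (Fin n) ⧸ R)) (cs : List ℕ) :
    FDC (autTriv (topP R cs)) := by
  rw [← pR_ker]
  exact (PF.main cls_fdc hR cs (PF.free R cs)).1

theorem ex_one (hR : LocSpec (FreeGroup (Fin n) ⧸ R)) (c : ℕ) :
    Ex (autTriv (topP R [c])) := by
  rw [← pR_ker]
  exact PF.main1 cls_ex ((mex_locally ℤ _ hR).index (Fin n)) c (PF.free R [c])

theorem fdc_one (hR : LocSpec (FreeGroup (Fin n) ⧸ R)) (c : ℕ) :
    FDC (autTriv (topP R [c])) := by
  rw [← pR_ker]
  exact PF.main1 cls_fdc ((mfd_locally ℤ _ hR).index (Fin n)) c (PF.free R [c])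

end

/-- Exactness over a quotient. -/
theorem exactOver {Γ : Type} [Group Γ] (N : Subgroup Γ) [N.Normal] (hA : Amen N)
    (hK : Ex (autTriv N)) : ExactOver N := by
  intro B hB
  constructor
  · intro h
    have h1 := (ex_of_quot N hK hB h.ex).isExact
    exact ⟨h1, fun _ => h1.coarselyEmbeds⟩
  · intro h
    have h1 := (exact_out_of_quot N hK hA hB h.ex).isExact
    refine ⟨h1, fun hcB => ?_⟩
    have : Countable (outImage B) := by
      have h2 : Function.Surjective (fun b : B => (⟨QuotientGroup.mk' (inn Γ) b, b, b.2, rfl⟩ :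
          outImage B)) := by
        rintro ⟨_, b, hb, rfl⟩
        exact ⟨⟨b, hb⟩, rfl⟩
      exact h2.countable
    exact h1.coarselyEmbeds

theorem exact_over_poly (n : ℕ) (R : Subgroup (FreeGroup (Fin n))) [R.Normal]
    (hR : VPolyTFA (FreeGroup (Fin n) ⧸ R)) (cs : List ℕ) :
    ExactAutOver (topP R cs) ∧ ExactOver (topP R cs) := by
  obtain ⟨hK, hV⟩ := ex_poly n R hR cs
  refine ⟨?_, exactOver _ (hV.subgroup _).amen hK⟩
  intro B hB hE
  have hc : Countable (MulAut (FreeGroup (Fin n) ⧸ pn R cs)) := countable_autP R cs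
  have h1 : IsExact B := (ex_of_quot _ hK hB hE.ex).isExact
  have h2 : IsExact (outImage B) := out_exact hV B h1
  have hcO : Countable (Out (FreeGroup (Fin n) ⧸ pn R cs)) :=
    (QuotientGroup.mk_surjective).countable
  have hcO' : Countable (outImage B) := inferInstance
  exact ⟨⟨h1, h1.coarselyEmbeds⟩, h2, h2.coarselyEmbeds⟩

theorem exact_over_one (n : ℕ) (R : Subgroup (FreeGroup (Fin n))) [R.Normal]
    (hR : LocSpec (FreeGroup (Fin n) ⧸ R)) (c : ℕ) : ExactOver (topP R [c]) :=
  exactOver _ (amen_topP R c) (ex_one n R hR c)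

end Pool.Agent.N506.PN
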